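import Pool.Agent.Lib.helper1.ERW4

set_option autoImplicit false

namespace Pool.Agent.Results.MP_204ba2_pr.ZeroSpeed

open MeasureTheory ProbabilityTheory Filter Topology

/-- On the probability space `(Ω, ν)`, `W` is a cookie environment of law `P` and `X` is the
excited random walk from `0` on it: given `W` and `X 0, …, X n`, the step to the right has
probability `W (X n) j`, where `j` is the number of earlier visits to `X n` (cookies are indexed
from `0`). -/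
def IsERW (P : Measure (ℤ → ℕ → ℝ)) {Ω : Type} [MeasurableSpace Ω] (ν : Measure Ω)
    (W : Ω → ℤ → ℕ → ℝ) (X : Ω → ℕ → ℤ) : Prop :=
  IsProbabilityMeasure ν ∧ Measurable W ∧ ν.map W = P ∧ Measurable X ∧ (∀ θ, X θ 0 = 0) ∧
  (∀ θ n, X θ (n + 1) = X θ n + 1 ∨ X θ (n + 1) = X θ n - 1) ∧
  ∀ n, condExp (MeasurableSpace.comap (fun θ => (W θ, fun m : Fin (n + 1) => X θ m))
    inferInstance) ν (Set.indicator {θ | X θ (n + 1) = X θ n + 1} fun _ => (1 : ℝ)) =ᵐ[ν]
    fun θ => W θ (X θ n) ((Finset.range n).filter fun m => X θ m = X θ n).card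

theorem result : ∃ P : Measure (ℤ → ℕ → ℝ), IsProbabilityMeasure P ∧
    (∀ᵐ ω ∂P, ∀ (x : ℤ) (n : ℕ), ω x n ∈ Set.Icc (0 : ℝ) 1) ∧
    iIndepFun (fun (x : ℤ) (ω : ℤ → ℕ → ℝ) => ω x) P ∧
    (∀ x : ℤ, IdentDistrib (fun ω : ℤ → ℕ → ℝ => ω x) (fun ω => ω 0) P P) ∧
    (∀ x : ℤ, 0 < P {ω | ∀ n, 0 < ω x n} ∧ 0 < P {ω | ∀ n, ω x n < 1}) ∧
    (∀ᵐ ω ∂P, Tendsto (fun N : ℕ => ∑ i ∈ Finset.range N, (2 * ω 0 i - 1)) atTop (𝓝 3)) ∧
    (∃ (Ω : Type) (_ : MeasurableSpace Ω) (ν : Measure Ω) (W : Ω → ℤ → ℕ → ℝ) (X : Ω → ℕ → ℤ),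
      IsERW P ν W X) ∧
    ∀ (Ω : Type) [MeasurableSpace Ω] (ν : Measure Ω) (W : Ω → ℤ → ℕ → ℝ) (X : Ω → ℕ → ℤ),
      IsERW P ν W X → ∀ᵐ θ ∂ν, Tendsto (fun n : ℕ => (X θ n : ℝ) / n) atTop (𝓝 0) := by
  open Pool.Agent.Lib.helper1.ERW in
  have h01 : ∀ s i, ck2 s i ∈ Set.Icc (0 : ℝ) 1 := fun s i => by
    simp only [ck2, sh2]; split_ifs <;> norm_num
  refine ⟨μ.map (env ck2 0), Measure.isProbabilityMeasure_map (m_env m_ck2 0).aemeasurable,
    ae01 m_ck2 h01, (iid m_ck2).1, (iid m_ck2).2, fun x => ?_, ?_,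
    ⟨Θ, inferInstance, μ, env ck2 0, XX ck2 0, inferInstance, m_env m_ck2 0, rfl, m_XX m_ck2 0,
      fun _ => rfl, XX_step 0, fun n => ?_⟩, fun Ω _ ν W X ⟨_, mW, hP, mX, h0, h1, hc⟩ =>
      zero_speed (iid m_ck2).1 (iid m_ck2).2 heavy mW hP mX h0 h1 hc⟩
  · have m := pr m_ck2 x (S := {f | ∀ i, f i ∈ Set.Ioo (0 : ℝ) 1}) (measurableSet_setOfPred.2
      (.forall fun i => measurableSet_setOfPred.1 (measurable_pi_apply i measurableSet_Ioo)))
    have hf : 0 < volume (ck2 ⁻¹' {f | ∀ i, f i ∈ Set.Ioo (0 : ℝ) 1}) := by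
      refine lt_of_lt_of_le (by simp; norm_num) (measure_mono (s := Set.Ioc (⟨2 / 5, by norm_num,
        by norm_num⟩ : unitInterval) ⟨1 / 2, by norm_num, by norm_num⟩) fun s hs i => ?_)
      have := Nf_le (s := s) hs.1
      rw [ck2, ty, if_pos (show (s : ℝ) ≤ 1 / 2 from hs.2), sh2, if_neg (by omega),
        if_neg (by omega)]
      split_ifs <;> norm_num
    exact ⟨(hf.trans_eq m.symm).trans_le (measure_mono fun ω k n => (k n).1),
      (hf.trans_eq m.symm).trans_le (measure_mono fun ω k n => (k n).2)⟩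
  · have : ∀ᵐ ω ∂μ.map (env ck2 0), ω 0 ∈ Set.range sh2 :=
      (ae_map_iff (m_env m_ck2 0).aemeasurable ((Set.countable_range sh2).measurableSet.preimage
        (measurable_pi_apply 0))).2 (.of_forall fun θ => ⟨_, rfl⟩)
    filter_upwards [this] with ω ⟨p, h⟩
    refine tendsto_const_nhds.congr' ?_
    filter_upwards [sh2_sum p] with n hn
    rw [← h, hn]
  · convert cond m_ck2 h01 0 n using 2
    refine le_antisymm (Measurable.comap_le ?_) (Measurable.comap_le ?_)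
    · exact (measurable_fst.prodMk measurable_snd.snd).comp (comap_measurable _)
    · exact (measurable_fst.prodMk ((measurable_const (a := fun i : Fin 0 => i.elim0)).prodMk
        measurable_snd)).comp (comap_measurable _) |>.mono le_rfl le_rfl |> fun h => by
          convert h using 1; ext1 θ; simp only [Function.comp]; congr 2; exact Subsingleton.elim _ _

end Pool.Agent.Results.MP_204ba2_pr.ZeroSpeed
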